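import Mathlib

/-!
# Stable forking: the notions of the statement

Everything here is a standard model theoretic notion, written for an arbitrary first order
language.  A formula `φ(x; y)` is a term of `L.Formula (α ⊕ β)`, where `α` indexes the
variables `x` and `β` the variables `y`.
-/

open FirstOrder FirstOrder.Language

namespace Pool.Agent.SFC

section General

variable {L : FirstOrder.Language.{0, 0}} {α β : Type}

/-- The family `φ(x; b i)` (`i ∈ I`) is `k`-inconsistent in `N`: no `k` of its members have a
common solution. -/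
def KInconsistent {I : Type} {N : Type} [L.Structure N] (k : ℕ) (φ : L.Formula (α ⊕ β))
    (b : I → β → N) : Prop :=
  ∀ s : Finset I, s.card = k → ¬ ∃ a : α → N, ∀ i ∈ s, φ.Realize (Sum.elim a (b i))

/-- `φ(x; y)` has the tree property in the theory `T`: in some model of `T` there are tuples
`b s`, indexed by the finite sequences `s` of natural numbers (the list `i :: s` is the sequence
`s` continued by `i`), such that the family of the successors of every node is `k`-inconsistent
and the family along every (finite) path is satisfiable. -/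
def HasTreeProperty (T : L.Theory) (φ : L.Formula (α ⊕ β)) : Prop :=
  ∃ (N : Type) (_ : L.Structure N) (_ : N ⊨ T) (_ : Nonempty N) (k : ℕ) (b : List ℕ → β → N),
    (∀ s : List ℕ, KInconsistent k φ (fun i : ℕ => b (i :: s))) ∧
    (∀ s : List ℕ, ∃ a : α → N, ∀ t : List ℕ, t ≠ [] → t <:+ s → φ.Realize (Sum.elim a (b t)))

/-- A theory is simple if no formula has the tree property in it. -/
def Simple (T : L.Theory) : Prop :=
  ∀ (m n : ℕ) (φ : L.Formula (Fin m ⊕ Fin n)), ¬ HasTreeProperty T φ

/-- `φ(x; y)` is stable in `T`: no model of `T` has sequences `a i`, `b j` with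
`φ(a i; b j)` if and only if `i < j`. -/
def StableFormula (T : L.Theory) (φ : L.Formula (α ⊕ β)) : Prop :=
  ¬ ∃ (N : Type) (_ : L.Structure N) (_ : N ⊨ T) (_ : Nonempty N)
      (a : ℕ → α → N) (b : ℕ → β → N),
      ∀ i j : ℕ, φ.Realize (Sum.elim (a i) (b j)) ↔ i < j

/-- The sequence `b` of tuples is indiscernible over the set `C`. -/
def IndiscernibleOver {N : Type} [L.Structure N] (C : Set N) (b : ℕ → β → N) : Prop :=
  ∀ (n m : ℕ) (ψ : L.Formula ((Fin n × β) ⊕ Fin m)) (c : Fin m → N), (∀ i, c i ∈ C) →
    ∀ f g : Fin n → ℕ, StrictMono f → StrictMono g →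
      (ψ.Realize (Sum.elim (fun p => b (f p.1) p.2) c) ↔
        ψ.Realize (Sum.elim (fun p => b (g p.1) p.2) c))

/-- `φ(x; b)` divides over `C ⊆ M`: in some elementary extension there is a sequence starting
with `b`, indiscernible over `C`, along which `φ(x; ·)` is `k`-inconsistent for some `k`. -/
def Divides {M : Type} [L.Structure M] (C : Set M) (φ : L.Formula (α ⊕ β)) (b : β → M) : Prop :=
  ∃ (N : Type) (_ : L.Structure N) (j : M ↪ₑ[L] N) (k : ℕ) (d : ℕ → β → N),
    d 0 = j ∘ b ∧ IndiscernibleOver (L := L) (j '' C) d ∧ KInconsistent k φ d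

/-- `φ(x; b)` forks over `C ⊆ M`: in some elementary extension it implies a finite disjunction
of formulas each of which divides over `C`. -/
def Forks {M : Type} [L.Structure M] (C : Set M) (φ : L.Formula (α ⊕ β)) (b : β → M) : Prop :=
  ∃ (N : Type) (_ : L.Structure N) (j : M ↪ₑ[L] N) (r : ℕ) (n : Fin r → ℕ)
    (ψ : ∀ i : Fin r, L.Formula (α ⊕ Fin (n i))) (d : ∀ i : Fin r, Fin (n i) → N),
    (∀ i, Divides (j '' C) (ψ i) (d i)) ∧
    ∀ a : α → N, φ.Realize (Sum.elim a (j ∘ b)) → ∃ i, (ψ i).Realize (Sum.elim a (d i))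

/-- The type of `a` over `B` forks over `C`: some formula over `B` true of `a` forks
over `C`. -/
def TypeForks {M : Type} [L.Structure M] (C B : Set M) (a : α → M) : Prop :=
  ∃ (n : ℕ) (φ : L.Formula (α ⊕ Fin n)) (d : Fin n → M), (∀ i, d i ∈ B) ∧
    φ.Realize (Sum.elim a d) ∧ Forks C φ d

/-- Stable forking for `T`: if the type of `a` over `C ∪ b` forks over `C`, then it contains a
formula `φ(x; d)` (`d` a tuple of elements of `C ∪ b`) that forks over `C` and such that
`φ(x; y)` is stable. -/
def StableForking (T : L.Theory) : Prop :=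
  ∀ (M : Type) [L.Structure M] [Nonempty M], M ⊨ T → ∀ (C : Set M) (m n : ℕ) (a : Fin m → M)
    (b : Fin n → M), TypeForks (L := L) C (C ∪ Set.range b) a →
    ∃ (r : ℕ) (φ : L.Formula (Fin m ⊕ Fin r)) (d : Fin r → M),
      (∀ i, d i ∈ C ∪ Set.range b) ∧ StableFormula T φ ∧ φ.Realize (Sum.elim a d) ∧
        Forks C φ d

end General

end Pool.Agent.SFC
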