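import Pool.Agent.Lib.MP_aa7e4d_lc.Defs

/-!
# Frames

A frame is a set `N` of points (of two kinds `A`, `B`) and lines (kind `L`) with three unary
functions, which are read as optional parents (`f i x = x` means: no parent), and a symmetric
relation `R`.  A point has at most one parent line `f p x`; a line has at most one parent of kind
`A` (`f r0 x`) and one of kind `B` (`f r1 x`).  The strict order `lt` only expresses that the
parent relation is acyclic.
-/

open FirstOrder FirstOrder.Language

namespace Pool.Agent.SFC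

/-- the kinds of elements: points of kind `A`, points of kind `B`, lines -/
inductive Kind
  | A
  | B
  | L
  deriving DecidableEq, Fintype

/-- the names of the three parent functions -/
inductive Fn
  | p
  | r0
  | r1
  deriving DecidableEq, Fintype

/-- `ok κ i κ'`: an element of kind `κ` may have an `i`-parent of kind `κ'` -/
def ok : Kind → Fn → Kind → Prop
  | .A, .p, .L => True
  | .B, .p, .L => True
  | .L, .r0, .A => True
  | .L, .r1, .B => True
  | _, _, _ => False

structure Frame (N : Type) where
  kind : N → Kind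
  f : Fn → N → N
  R : N → N → Prop
  lt : N → N → Prop
  lt_irrefl : ∀ x, ¬ lt x x
  lt_trans : ∀ x y z, lt x y → lt y z → lt x z
  f_lt : ∀ i x, f i x ≠ x → lt (f i x) x
  f_ok : ∀ i x, f i x ≠ x → ok (kind x) i (kind (f i x))
  R_symm : ∀ x y, R x y → R y x
  R_irrefl : ∀ x, ¬ R x x

namespace Frame

variable {N : Type} (F : Frame N)

/-- A frame is generic if every possible new element over a finite set exists: for a finite set
`S`, a kind `κ`, parents `g i ∈ S` (or none) of the right kinds and a set `U` there is `v ∉ S`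
of kind `κ` with exactly these parents and with `R v u ↔ u ∈ U` for `u ∈ S`. -/
def Generic : Prop :=
  ∀ (S : Finset N) (κ : Kind) (g : Fn → Option N) (U : Set N),
    (∀ i y, g i = some y → y ∈ S ∧ ok κ i (F.kind y)) →
    ∃ v, v ∉ S ∧ F.kind v = κ ∧ (∀ i, g i = none → F.f i v = v) ∧
      (∀ i y, g i = some y → F.f i v = y) ∧ ∀ u ∈ S, (F.R v u ↔ u ∈ U)

/-- iterated parents: `ev (i :: w) x = f i (ev w x)` -/
def ev (w : List Fn) (x : N) : N := w.foldr (fun i y => F.f i y) x

@[simp] theorem ev_nil (x : N) : F.ev [] x = x := rfl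

@[simp] theorem ev_cons (i : Fn) (w : List Fn) (x : N) : F.ev (i :: w) x = F.f i (F.ev w x) := rfl

/-- the point `x` is incident with the line `l` -/
def Inc (x l : N) : Prop :=
  F.kind x ≠ .L ∧ F.kind l = .L ∧ (F.f .p x = l ∨ F.f .r0 l = x ∨ F.f .r1 l = x)

/-- the `A`-point `x` is adjacent to the `B`-point `y`: `R x y` holds and `x`, `y` are incident
with a common line which is the parent of one of them -/
def Adj (x y : N) : Prop :=
  F.kind x = .A ∧ F.kind y = .B ∧ F.R x y ∧
    ((F.f .p x ≠ x ∧ F.Inc y (F.f .p x)) ∨ (F.f .p y ≠ y ∧ F.Inc x (F.f .p y)))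

end Frame

/-- The tuples `u`, `u'` (in two frames) cannot be distinguished by iterated parents up to
depth `d`. -/
def Approx {N₁ N₂ : Type} (F₁ : Frame N₁) (F₂ : Frame N₂) (d : ℕ) {α : Type}
    (u : α → N₁) (u' : α → N₂) : Prop :=
  (∀ (a b : α) (w w' : List Fn), w.length ≤ d → w'.length ≤ d →
      (F₁.ev w (u a) = F₁.ev w' (u b) ↔ F₂.ev w (u' a) = F₂.ev w' (u' b))) ∧
  (∀ (a : α) (w : List Fn), w.length ≤ d → F₁.kind (F₁.ev w (u a)) = F₂.kind (F₂.ev w (u' a))) ∧
  (∀ (a b : α) (w w' : List Fn), w.length ≤ d → w'.length ≤ d →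
      (F₁.R (F₁.ev w (u a)) (F₁.ev w' (u b)) ↔ F₂.R (F₂.ev w (u' a)) (F₂.ev w' (u' b))))

/-! ### The language -/

/-- relation symbols: three unary ones (the kinds), incidence and adjacency -/
inductive Sym : ℕ → Type
  | kd (κ : Kind) : Sym 1
  | inc : Sym 2
  | adj : Sym 2

/-- the language of the counterexample: finite and relational -/
def Lang : FirstOrder.Language.{0, 0} := ⟨fun _ => Empty, Sym⟩

/-- The `Lang`-structure on `N` is the one given by the frame `F` (which forgets which element
is the parent of which). -/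
def Compat {N : Type} [Lang.Structure N] (F : Frame N) : Prop :=
  (∀ (κ : Kind) (v : Fin 1 → N),
      Structure.RelMap (L := Lang) (Sym.kd κ : Lang.Relations 1) v ↔ F.kind (v 0) = κ) ∧
  (∀ v : Fin 2 → N, Structure.RelMap (L := Lang) (Sym.inc : Lang.Relations 2) v ↔
      F.Inc (v 0) (v 1)) ∧
  (∀ v : Fin 2 → N, Structure.RelMap (L := Lang) (Sym.adj : Lang.Relations 2) v ↔
      F.Adj (v 0) (v 1))

/-- the structure given by a frame -/
@[reducible] def Frame.str {N : Type} (F : Frame N) : Lang.Structure N where
  funMap := fun f => Empty.elim f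
  RelMap := fun {n} r v => match n, r, v with
    | 1, Sym.kd κ, v => F.kind (v 0) = κ
    | 2, Sym.inc, v => F.Inc (v 0) (v 1)
    | 2, Sym.adj, v => F.Adj (v 0) (v 1)

theorem Frame.compat_str {N : Type} (F : Frame N) :
    @Compat N F.str F := by
  refine ⟨fun κ v => Iff.rfl, fun v => Iff.rfl, fun v => Iff.rfl⟩

end Pool.Agent.SFC
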