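import Pool.Agent.Lib.MP_aa7e4d_lc.Frame

/-!
# Statements of the modules

Proofs are described in `Blueprint.md`.
-/

open FirstOrder FirstOrder.Language

namespace Pool.Agent.SFC

/-- EXT: finitely many new elements `X` (with prescribed kinds, parents, relation `R`) can be
added over a finite subset `S` of a generic frame. -/
def ExtStatement : Prop :=
  ∀ (N : Type) (F : Frame N), F.Generic → ∀ (X : Type) [Finite X] (ρ : X → ℕ) (κ : X → Kind)
    (τ : X → Fn → Option (X ⊕ N)) (S : Finset N) (Q : X → X → Prop) (U : X → N → Prop),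
    (∀ x i y, τ x i = some (Sum.inl y) → ρ y < ρ x ∧ ok (κ x) i (κ y)) →
    (∀ x i s, τ x i = some (Sum.inr s) → s ∈ S ∧ ok (κ x) i (F.kind s)) →
    (∀ x y, Q x y → Q y x) → (∀ x, ¬ Q x x) →
    ∃ e : X → N, Function.Injective e ∧ (∀ x, e x ∉ S) ∧ (∀ x, F.kind (e x) = κ x) ∧
      (∀ x i, τ x i = none → F.f i (e x) = e x) ∧
      (∀ x i y, τ x i = some (Sum.inl y) → F.f i (e x) = e y) ∧
      (∀ x i s, τ x i = some (Sum.inr s) → F.f i (e x) = s) ∧
      (∀ x y, F.R (e x) (e y) ↔ Q x y) ∧ (∀ x, ∀ s ∈ S, (F.R (e x) s ↔ U x s))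

/-- STEP: the back and forth step. -/
def StepStatement : Prop :=
  ∀ d : ℕ, ∃ D : ℕ, d ≤ D ∧ ∀ (N₁ N₂ : Type) (F₁ : Frame N₁) (F₂ : Frame N₂), F₂.Generic →
    ∀ (α : Type) [Finite α] (u : α → N₁) (u' : α → N₂), Approx F₁ F₂ D u u' →
      ∀ v : N₁, ∃ v' : N₂,
        Approx F₁ F₂ d (fun o : Option α => o.elim v u) (fun o : Option α => o.elim v' u')

/-- DET: the truth of a formula is determined by the iterated parents up to some depth. -/
def DetStatement : Prop :=
  ∀ (α : Type) [Finite α] (φ : Lang.Formula α), ∃ d : ℕ,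
    ∀ (N₁ N₂ : Type) [Lang.Structure N₁] [Lang.Structure N₂] (F₁ : Frame N₁) (F₂ : Frame N₂),
      F₁.Generic → F₂.Generic → Compat F₁ → Compat F₂ →
      ∀ (u : α → N₁) (u' : α → N₂), Approx F₁ F₂ d u u' → (φ.Realize u ↔ φ.Realize u')

/-- NAT: there is a countable generic frame. -/
def NatStatement : Prop := ∃ F : Frame ℕ, F.Generic

/-- ULTRA: an ultrapower of a generic frame is a generic frame, compatible with the ultrapower
of the `Lang`-structure. -/
def UltraStatement : Prop :=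
  ∀ (M : Type) [Lang.Structure M] [Nonempty M] (F : Frame M), F.Generic → Compat F →
    ∀ (I : Type) (u : Ultrafilter I),
      ∃ F' : Frame ((u : Filter I).Product (fun _ : I => M)), F'.Generic ∧ Compat F'

/-- EMB: a model of the complete theory of `M` embeds elementarily in an ultrapower of `M`. -/
def EmbStatement : Prop :=
  ∀ (L : FirstOrder.Language.{0, 0}) (M N : Type) [L.Structure M] [L.Structure N] [Nonempty M]
    [Nonempty N], N ⊨ L.completeTheory M →
    ∃ (I : Type) (u : Ultrafilter I),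
      Nonempty (N ↪ₑ[L] ((u : Filter I).Product (fun _ : I => M)))

/-- TREE: combinatorial selection of a node with infinitely many good successors. -/
def TreeStatement : Prop :=
  ∀ (N : Type) (n : ℕ) (X Y : List ℕ → Set N), (∀ σ, (X σ).Finite) → (∀ σ, (X σ).ncard < n) →
    ∃ s : List ℕ, {i : ℕ | ∃ σ : List ℕ, (i :: s) <:+ σ ∧
      ∀ z ∈ X σ, z ∈ Y (i :: s) → ∃ t : List ℕ, t ≠ [] ∧ t <:+ s ∧ z ∈ Y t}.Infinite

/-- UNIF: thinning out an infinite family of finite tuples. -/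
def UnifStatement : Prop :=
  ∀ (N Q T : Type) [Finite Q] [Finite T] (J : Set ℕ) (col : ℕ → Q) (y : ℕ → T → N) (k : ℕ),
    J.Infinite →
    ∃ K : Finset ℕ, K.card = k ∧ (∀ j ∈ K, j ∈ J) ∧ (∀ j ∈ K, ∀ j' ∈ K, col j = col j') ∧
      ∀ j ∈ K, ∀ j' ∈ K, j ≠ j' → ∀ α β : T, y j α = y j' β → y j' α = y j α

/-- AMALG: one tuple `a'` which is related to every `b j` (`j ∈ K`) as `a j` is. -/
def AmalgStatement : Prop :=
  ∀ (N : Type) (F : Frame N), F.Generic → ∀ (α β : Type) [Finite α] [Finite β] (d : ℕ)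
    (K : Finset ℕ) (a : ℕ → α → N) (b : ℕ → β → N) (W : Finset N),
    (∀ j ∈ K, ∀ j' ∈ K, Approx F F d (a j) (a j')) →
    (∀ j ∈ K, ∀ (x : α) (y : β) (w w' : List Fn), w.length ≤ d → w'.length ≤ d →
      F.ev w (a j x) = F.ev w' (b j y) → F.ev w (a j x) ∈ W) →
    (∀ j ∈ K, ∀ (x : α) (w : List Fn) (i : Fn), w.length < d →
      F.ev w (a j x) ∈ W → F.ev (i :: w) (a j x) ∈ W) →
    (∀ j ∈ K, ∀ j' ∈ K, ∀ (x : α) (w : List Fn), w.length ≤ d → ∀ z ∈ W,
      (F.ev w (a j x) = z ↔ F.ev w (a j' x) = z)) →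
    (∀ j ∈ K, ∀ j' ∈ K, ∀ (x : α) (w : List Fn), w.length ≤ d → ∀ z ∈ W,
      (F.R (F.ev w (a j x)) z ↔ F.R (F.ev w (a j' x)) z)) →
    (∀ j ∈ K, ∀ j' ∈ K, ∀ (x : α) (y : β) (w w' : List Fn), w.length ≤ d → w'.length ≤ d →
      (F.R (F.ev w (a j x)) (F.ev w' (b j y)) ↔ F.R (F.ev w (a j' x)) (F.ev w' (b j' y)))) →
    (∀ j ∈ K, ∀ j' ∈ K, j ≠ j' → ∀ (y y' : β) (w w' : List Fn), w.length ≤ d → w'.length ≤ d →
      F.ev w (b j y) = F.ev w' (b j' y') → F.ev w (b j' y) = F.ev w (b j y)) →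
    ∃ a' : α → N, ∀ j ∈ K, Approx F F d (Sum.elim (a j) (b j)) (Sum.elim a' (b j))

/-- SIMP: the theory of a generic frame (in the language `Lang`) is simple. -/
def SimpStatement : Prop :=
  ∀ (M : Type) [Lang.Structure M] [Nonempty M] (F : Frame M), F.Generic → Compat F →
    Simple (Lang.completeTheory M)

/-- REOR1: the single parent line `e` (without parents) of a `B`-point `b` can be turned into a
child of `b`; the `Lang`-structure does not change. -/
def Reor1Statement : Prop :=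
  ∀ (N : Type) [Lang.Structure N] (F : Frame N), F.Generic → Compat F →
    ∀ (b e : N), F.kind b = .B → F.kind e = .L → (∀ i, F.f i e = e) → F.f .p b = e →
    ∃ F' : Frame N, F'.Generic ∧ Compat F' ∧ F'.kind = F.kind ∧ F'.R = F.R ∧
      (∀ i, F'.f i b = b) ∧ ∀ x, x ≠ b → x ≠ e → ∀ i, F'.f i x = F.f i x

/-- REOR2: two children `a`, `b` with `¬ R a b` of a line `e` without parents can be turned into
the parents of `e`; the `Lang`-structure does not change. -/
def Reor2Statement : Prop :=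
  ∀ (N : Type) [Lang.Structure N] (F : Frame N), F.Generic → Compat F →
    ∀ (a b e : N), F.kind a = .A → F.kind b = .B → F.kind e = .L → (∀ i, F.f i e = e) →
    F.f .p a = e → F.f .p b = e → ¬ F.R a b →
    ∃ F' : Frame N, F'.Generic ∧ Compat F' ∧ F'.kind = F.kind ∧ F'.R = F.R ∧
      (∀ i, F'.f i a = a) ∧ (∀ i, F'.f i b = b) ∧
      ∀ x, x ≠ a → x ≠ b → x ≠ e → ∀ i, F'.f i x = F.f i x

/-- The configuration: a line `e` without parents, `A`-points `c n` and `B`-points `h n` without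
parents, `A`-points `a n` and `B`-points `b n` which are children of `e`, and `R` holds exactly
between `a i` and `b j` for `i < j`. -/
structure Config {N : Type} (F : Frame N) (e : N) (c a b h : ℕ → N) : Prop where
  kind_e : F.kind e = .L
  f_e : ∀ i, F.f i e = e
  kind_c : ∀ n, F.kind (c n) = .A
  f_c : ∀ n i, F.f i (c n) = c n
  kind_a : ∀ n, F.kind (a n) = .A
  p_a : ∀ n, F.f .p (a n) = e
  kind_b : ∀ n, F.kind (b n) = .B
  p_b : ∀ n, F.f .p (b n) = e
  kind_h : ∀ n, F.kind (h n) = .B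
  f_h : ∀ n i, F.f i (h n) = h n
  inj_c : Function.Injective c
  inj_a : Function.Injective a
  inj_b : Function.Injective b
  inj_h : Function.Injective h
  R_ab : ∀ i j, F.R (a i) (b j) ↔ i < j
  R_aa : ∀ i j, ¬ F.R (a i) (a j)
  R_bb : ∀ i j, ¬ F.R (b i) (b j)
  R_cc : ∀ i j, ¬ F.R (c i) (c j)
  R_hh : ∀ i j, ¬ F.R (h i) (h j)
  R_ca : ∀ i j, ¬ F.R (c i) (a j)
  R_cb : ∀ i j, ¬ F.R (c i) (b j)
  R_ch : ∀ i j, ¬ F.R (c i) (h j)
  R_ah : ∀ i j, ¬ F.R (a i) (h j)
  R_bh : ∀ i j, ¬ F.R (b i) (h j)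
  R_ea : ∀ i, ¬ F.R e (a i)
  R_eb : ∀ i, ¬ F.R e (b i)
  R_ec : ∀ i, ¬ F.R e (c i)

/-- SEQ: the configuration exists in every generic frame. -/
def SeqStatement : Prop :=
  ∀ (N : Type) (F : Frame N), F.Generic → ∃ (e : N) (c a b h : ℕ → N), Config F e c a b h

/-- The tuple over `C ∪ {b j}` coded by `d`. -/
def tup {N : Type} (c b : ℕ → N) (j : ℕ) {r : ℕ} (d : Fin r → ℕ ⊕ Unit) : Fin r → N :=
  fun i => Sum.elim c (fun _ => b j) (d i)

/-- TYP1: adjacent pairs all have the same type over `C`. -/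
def Typ1Statement : Prop :=
  DetStatement → ∀ (N : Type) [Lang.Structure N] (F : Frame N), F.Generic → Compat F →
    ∀ (e : N) (c a b h : ℕ → N), Config F e c a b h →
    ∀ (r : ℕ) (d : Fin r → ℕ ⊕ Unit) (φ : Lang.Formula (Fin 1 ⊕ Fin r)) (i j i' j' : ℕ),
      i < j → i' < j' →
      (φ.Realize (Sum.elim (fun _ => a i) (tup c b j d)) ↔
        φ.Realize (Sum.elim (fun _ => a i') (tup c b j' d)))

/-- TYP2: a non-adjacent pair `a i`, `b j` has the same type over `C` as `c k`, `b 1`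
(for tuples not containing `c k`). -/
def Typ2Statement : Prop :=
  DetStatement → Reor1Statement → Reor2Statement →
    ∀ (N : Type) [Lang.Structure N] (F : Frame N), F.Generic → Compat F →
    ∀ (e : N) (c a b h : ℕ → N), Config F e c a b h →
    ∀ (r : ℕ) (d : Fin r → ℕ ⊕ Unit) (φ : Lang.Formula (Fin 1 ⊕ Fin r)) (i j k : ℕ),
      j ≤ i → (∀ m, d m ≠ Sum.inl k) →
      (φ.Realize (Sum.elim (fun _ => a i) (tup c b j d)) ↔
        φ.Realize (Sum.elim (fun _ => c k) (tup c b 1 d)))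

/-- INDISC: the sequence `b 1, h 1, h 2, …` is indiscernible over `C`. -/
def IndiscStatement : Prop :=
  DetStatement → Reor1Statement →
    ∀ (N : Type) [Lang.Structure N] (F : Frame N), F.Generic → Compat F →
    ∀ (e : N) (c a b h : ℕ → N), Config F e c a b h →
      IndiscernibleOver (L := Lang) (Set.range c)
        (fun (n : ℕ) (_ : Fin 1) => if n = 0 then b 1 else h n)

/-- INCONS: no point is adjacent to two members of the sequence `b 1, h 1, h 2, …`. -/
def InconsStatement : Prop :=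
  Reor1Statement →
    ∀ (N : Type) [Lang.Structure N] (F : Frame N), F.Generic → Compat F →
    ∀ (e : N) (c a b h : ℕ → N), Config F e c a b h →
      ∀ (x : N) (m n : ℕ), m ≠ n → F.Adj x (if m = 0 then b 1 else h m) →
        ¬ F.Adj x (if n = 0 then b 1 else h n)

/-- NOFORK: a formula over `C` which forks over `C` has no solution in `C`. -/
def NoForkStatement : Prop :=
  ∀ (L : FirstOrder.Language.{0, 0}) (M : Type) [L.Structure M] (C : Set M) (r : ℕ)
    (φ : L.Formula (Fin 1 ⊕ Fin r)) (d : Fin r → M), Forks C φ d →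
    ∀ c ∈ C, ¬ φ.Realize (Sum.elim (fun _ => c) d)

/-- The main theorem. -/
def MainStatement : Prop :=
  ∃ T : Lang.Theory, T.IsComplete ∧ Simple T ∧
    ∃ (M : Type) (_ : Lang.Structure M) (_ : Nonempty M) (_ : M ⊨ T) (C : Set M) (a b : M),
      TypeForks (L := Lang) C (C ∪ {b}) (fun _ : Fin 1 => a) ∧
      ∀ (r : ℕ) (φ : Lang.Formula (Fin 1 ⊕ Fin r)) (d : Fin r → M), (∀ i, d i ∈ C ∪ {b}) →
        φ.Realize (Sum.elim (fun _ => a) d) → Forks C φ d → ¬ StableFormula T φ

end Pool.Agent.SFC
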